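import Pool.Agent.H77.BD.Targets

/-!
MP_9d0bb7_lc, board bct, row FLD: the field and the root elements are definable.
-/

set_option autoImplicit false

open Set Matrix Pool.Agent.H77.BC Pool.Agent.H77.BD

namespace Pool.Agent.H74.BCT

/-- row FLD -/
theorem pf_FLD {M : Type} (U : RU M) (hDUX : T_DUX U) (hRCH : T_RCH) (hNBR : T_NBR) :
    T_FLD U := by
  intro l C hC hl F Γ _ _ _ _ x τ hCD
  have hfG : Ful U Γ := inferInstance
  set α₀ : Root C := sr hC ⟨0, by omega⟩ with hα₀
  let cF : Cod M F := ⟨Cod.ι M Γ, inferInstance, fun t => Cod.c (x α₀ t), fun s t h =>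
    hCD.inj α₀ s t (Cod.inj (M := M) h)⟩
  let _ := cF
  have hroot : U.D {g : Γ | ∃ t, g = x α₀ t} := hDUX hC hCD α₀
  have hfF : Ful U F := ⟨by
    unfold RU.D at hroot ⊢
    have e : Cod.c (M := M) '' (univ : Set F) =
        Cod.c (M := M) '' {g : Γ | ∃ t : F, g = x α₀ t} := by
      ext y
      constructor
      · rintro ⟨t, -, rfl⟩
        exact ⟨x α₀ t, ⟨t, rfl⟩, rfl⟩
      · rintro ⟨g, ⟨t, rfl⟩, rfl⟩
        exact ⟨t, mem_univ _, rfl⟩
    rw [e]
    exact hroot⟩
  have hjd : DFn U (fun t : F => x α₀ t) :=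
    DFn_of_code (M := M) (v := fun t : F => x α₀ t) id (fun _ => rfl)
  -- the commutator in the form of a definition
  have hcom : ∀ β γ δ : Root C, δ.1 = β.1 + γ.1 → ∀ s t,
      x δ ((eps C β.1 γ.1 : F) * s * t) = x β s * x γ t * (x γ t * x β s)⁻¹ := by
    intro β γ δ h s t
    rw [hCD.com β γ δ h s t, mul_inv_cancel_right]
  -- steps
  have hstep : ∀ α β : Root C, ip C α.1 β.1 = 1 → DFn U (fun t : F => x α t) →
      DFn U (fun t : F => x β t) := by
    intro α β hαβ hα
    have hβα : ip C β.1 α.1 = 1 := by rw [ip_comm hC, hαβ]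
    set γ : Root C := sb hC β α hβα with hγ
    have hsum : β.1 = γ.1 + α.1 := by
      rw [hγ, sb_val, sub_add_cancel]
    have e : (fun t : F => x β t) = fun t : F =>
        x γ (eps C γ.1 α.1 : F) * x α t * (x α t * x γ (eps C γ.1 α.1 : F))⁻¹ := by
      funext t
      rw [← hcom γ α β hsum, eps_mul_self_F, one_mul]
    rw [e]
    exact DFn_gmul (DFn_gmul (DFn_const _) hα) (DFn_ginv (DFn_gmul hα (DFn_const _)))
  have hall : ∀ β : Root C, DFn U (fun t : F => x β t) := by
    intro β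
    have h := hRCH hC hl α₀ β
    induction h with
    | refl => exact hjd
    | tail _ hbc ih => exact hstep _ _ hbc ih
  have hinj : ∀ s t : F, x α₀ s = x α₀ t → s = t := hCD.inj α₀
  have hadd : DFn U (fun p : F × F => p.1 + p.2) := by
    unfold DFn
    have h1 : U.D {p : (F × F) × F | x α₀ p.2 = x α₀ p.1.1 * x α₀ p.1.2} :=
      D_eqf (DFn_comp hjd DFn_snd) (DFn_gmul (DFn_comp hjd (DFn_comp DFn_fst DFn_fst))
        (DFn_comp hjd (DFn_comp DFn_snd DFn_fst)))
    have e : {p : (F × F) × F | p.2 = p.1.1 + p.1.2} =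
        {p : (F × F) × F | x α₀ p.2 = x α₀ p.1.1 * x α₀ p.1.2} := by
      ext p
      constructor
      · intro h
        have h' : p.2 = p.1.1 + p.1.2 := h
        change x α₀ p.2 = x α₀ p.1.1 * x α₀ p.1.2
        rw [h', hCD.add]
      · intro h
        have h' : x α₀ p.2 = x α₀ p.1.1 * x α₀ p.1.2 := h
        rw [← hCD.add] at h'
        exact hinj _ _ h'
    rwa [e]
  have hmul : DFn U (fun p : F × F => p.1 * p.2) := by
    unfold DFn
    obtain ⟨γ, hγ⟩ := hNBR hC hl α₀
    set β : Root C := ad hC α₀ γ hγ with hβ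
    have hsum : α₀.1 = β.1 + (ng γ).1 := by
      rw [hβ, ad_val, ng_val, add_neg_cancel_right]
    -- the sign
    have hx0 : x α₀ 0 = 1 := by
      have h := hCD.add α₀ 0 0
      rw [add_zero] at h
      exact left_eq_mul.mp h
    have hneg : ∀ t : F, x α₀ (-t) = (x α₀ t)⁻¹ := by
      intro t
      apply eq_inv_of_mul_eq_one_left
      rw [← hCD.add, neg_add_cancel, hx0]
    have hsg : DFn U (fun t : F => x α₀ ((eps C β.1 (ng γ).1 : F) * t)) := by
      rcases eps_cases (C := C) β.1 (ng γ).1 with h | h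
      · rw [h]
        simp only [Int.cast_one, one_mul]
        exact hjd
      · rw [h]
        simp only [Int.cast_neg, Int.cast_one, neg_mul, one_mul, hneg]
        exact DFn_ginv hjd
    have h11 : DFn U (fun p : (F × F) × F => p.1.1) := DFn_comp DFn_fst DFn_fst
    have h12 : DFn U (fun p : (F × F) × F => p.1.2) := DFn_comp DFn_snd DFn_fst
    have h2 : DFn U (fun p : (F × F) × F => p.2) := DFn_snd
    have k1 : DFn U (fun p : (F × F) × F => x β p.1.1) :=
      DFn_comp (g := fun t : F => x β t) (hall β) h11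
    have k2 : DFn U (fun p : (F × F) × F => x (ng γ) p.1.2) :=
      DFn_comp (g := fun t : F => x (ng γ) t) (hall (ng γ)) h12
    have k3 : DFn U (fun p : (F × F) × F => x α₀ ((eps C β.1 (ng γ).1 : F) * p.2)) :=
      DFn_comp (g := fun t : F => x α₀ ((eps C β.1 (ng γ).1 : F) * t)) hsg h2
    have h3 : U.D {p : (F × F) × F | x α₀ ((eps C β.1 (ng γ).1 : F) * p.2) =
        x β p.1.1 * x (ng γ) p.1.2 * (x (ng γ) p.1.2 * x β p.1.1)⁻¹} :=
      D_eqf k3 (DFn_gmul (DFn_gmul k1 k2) (DFn_ginv (DFn_gmul k2 k1)))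
    have e : {p : (F × F) × F | p.2 = p.1.1 * p.1.2} =
        {p : (F × F) × F | x α₀ ((eps C β.1 (ng γ).1 : F) * p.2) =
        x β p.1.1 * x (ng γ) p.1.2 * (x (ng γ) p.1.2 * x β p.1.1)⁻¹} := by
      ext p
      rw [mem_ofPred_eq, mem_ofPred_eq, ← hcom β (ng γ) α₀ hsum, mul_assoc]
      constructor
      · intro h
        rw [h]
      · intro h
        exact mul_left_cancel₀ (eps_ne_zero_F _ _) (hinj _ _ h)
    rwa [e]
  exact ⟨cF, { toFul := hfF, add := hadd, mul := hmul }, hall⟩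

end Pool.Agent.H74.BCT
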